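import Pool.Agent.H.MP_3ec6ac_an.A

namespace Pool.Agent.Results.MP_3ec6ac_an.Cycle

open Set Function
open scoped ContDiff
open Pool.Agent.H.MP_3ec6ac_an

/-- `c` is a periodic solution (possibly constant) of `x' = P (x, y)`, `y' = Q (x, y)`. -/
def Per (P Q : ℝ × ℝ → ℝ) (c : ℝ → ℝ × ℝ) : Prop :=
  (∀ t, HasDerivAt c (P (c t), Q (c t)) t) ∧ ∃ T : ℝ, 0 < T ∧ Periodic c T

theorem result : ∃ P Q : ℝ × ℝ → ℝ, ContDiff ℝ ∞ P ∧ ContDiff ℝ ∞ Q ∧
    (∀ p : ℝ × ℝ, fderiv ℝ P p (1, 0) * fderiv ℝ P p (0, 1) +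
      fderiv ℝ Q p (1, 0) * fderiv ℝ Q p (0, 1) = 0) ∧
    ∃ γ : ℝ → ℝ × ℝ, Per P Q γ ∧ (∃ a b, γ a ≠ γ b) ∧
      ∃ N : Set (ℝ × ℝ), IsOpen N ∧ range γ ⊆ N ∧
        ∀ c : ℝ → ℝ × ℝ, Per P Q c → range c ⊆ N → range c = range γ := by
  obtain ⟨σ, cσ, bσ, eσ⟩ := cut 2 3 (by norm_num) (by norm_num)
  obtain ⟨τ, cτ, bτ, eτ⟩ := cut (11 / 20) (3 / 5) (by norm_num) (by norm_num)
  set A : ℝ → ℝ := fun u => √(4 + σ u) with hA
  have p4 : ∀ u, 1 ≤ 4 + σ u := fun u => by have := (abs_le.1 (bσ u)).1; linarith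
  have cA : ContDiff ℝ ∞ A := (contDiff_const.add cσ).sqrt fun u => by have := p4 u; linarith
  have lA : ∀ u, 1 ≤ A u := fun u => Real.one_le_sqrt.2 (p4 u)
  have sA : ∀ u, |u| < 2 → A u * A u = 4 + u := fun u hu => by
    simp only [hA]; rw [Real.mul_self_sqrt (by have := p4 u; linarith), eσ u hu.le]
  set B : ℝ → ℝ := fun z => B0 (τ z) with hB
  have cB : ContDiff ℝ ∞ B := by
    refine ((cG.comp cτ).mul (cM.comp cτ)).div ((contDiff_const.mul (cρ.comp cτ)).mul
      ((cD.comp cτ).pow 3)) fun z => ?_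
    obtain ⟨r1, -, d1, -⟩ := bd (τ z) (bτ z)
    exact (show 0 < 2 * ρ (τ z) * D (τ z) ^ 3 by positivity).ne'
  have lB : ∀ z, 1 / 10 ≤ B z := fun z => (bd (τ z) (bτ z)).2.2.2.2.2.2.2
  have sB : ∀ z, |z| < 11 / 20 → B z = B0 z := fun z hz => by simp only [hB, eτ z hz.le]
  obtain ⟨X, S, dX, cS, dS, x1, x2, -⟩ := inv A cA 1 one_pos lA
  obtain ⟨Y, T, dY, cT, dT, y1, y2, -⟩ := inv B cB (1 / 10) (by norm_num) lB
  obtain ⟨U, z, L, hL, pU, pz, bz, bU, dU, dz, ne, ⟨a, b, hab⟩, hall⟩ := orb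
  have bz' : ∀ t, |z t| < 11 / 20 := fun t => (bz t).trans_lt (by norm_num)
  have ca : ContDiff ℝ ∞ fun x => A (S x) := cA.comp cS
  have cb : ContDiff ℝ ∞ fun y => s (T y) := cs.comp cT
  have ca' : ContDiff ℝ ∞ fun p : ℝ × ℝ => A (S p.1) := ca.comp contDiff_fst
  have cb' : ContDiff ℝ ∞ fun p : ℝ × ℝ => s (T p.2) := cb.comp contDiff_snd
  set P : ℝ × ℝ → ℝ := fun p => -(A (S p.1) * s (T p.2)) with hP
  set Q : ℝ × ℝ → ℝ := fun p => (A (S p.1) * A (S p.1) - s (T p.2) * s (T p.2) - 4) / 2 with hQ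
  have cP : ContDiff ℝ ∞ P := (ca'.mul cb').neg
  have cQ : ContDiff ℝ ∞ Q := (((ca'.mul ca').sub (cb'.mul cb')).sub contDiff_const).div_const 2
  set γ : ℝ → ℝ × ℝ := fun t => (X (U t), Y (z t)) with hγ
  have dγ : ∀ t, HasDerivAt γ (P (γ t), Q (γ t)) t := by
    intro t
    have := ((dX _).comp t (dU t)).prodMk ((dY _).comp t (dz t))
    refine (show HasDerivAt γ _ t from this).congr_deriv ?_
    have h0 : B0 (z t) ≠ 0 := by have := lB (z t); rw [sB _ (bz' t)] at this; linarith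
    simp only [hP, hQ, hγ, x1, y1, sA _ (bU t), sB _ (bz' t)]
    congr 1
    · ring
    · field_simp; ring
  have pγ : Periodic γ L := fun t => by simp only [hγ, pU t, pz t]
  have c1 : Continuous fun p : ℝ × ℝ => S p.1 := cS.continuous.comp continuous_fst
  have c2 : Continuous fun p : ℝ × ℝ => T p.2 := cT.continuous.comp continuous_snd
  refine ⟨P, Q, cP, cQ, orth _ _ (ca.differentiable (by simp)) (cb.differentiable (by simp)),
    γ, ⟨dγ, L, hL, pγ⟩, ⟨a, b, fun h => hab ?_⟩,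
    {p | |S p.1| < 2} ∩ {p | |T p.2| < 11 / 20} ∩ ({p | S p.1 = 0} ∩ {p | T p.2 = 0})ᶜ, ?_, ?_, ?_⟩
  · have := congrArg (fun p : ℝ × ℝ => T p.2) h
    simpa only [hγ, y1] using this
  · exact ((isOpen_lt c1.abs continuous_const).inter (isOpen_lt c2.abs continuous_const)).inter
      ((isClosed_eq c1 continuous_const).inter (isClosed_eq c2 continuous_const)).isOpen_compl
  · rintro _ ⟨t, rfl⟩
    refine ⟨⟨?_, ?_⟩, ?_⟩
    · simpa only [mem_setOf_eq, hγ, x1] using bU t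
    · simpa only [mem_setOf_eq, hγ, y1] using bz' t
    · simpa only [mem_compl_iff, mem_inter_iff, mem_setOf_eq, hγ, x1, y1] using ne t
  · rintro c ⟨dc, K, hK, pc⟩ hN
    have m : ∀ t, (|S (c t).1| < 2 ∧ |T (c t).2| < 11 / 20) ∧ ¬(S (c t).1 = 0 ∧ T (c t).2 = 0) :=
      fun t => hN (mem_range_self t)
    have k := iso (fun t => S (c t).1) (fun t => T (c t).2) K hK (fun t => by simp only [pc t])
      (fun t => by simp only [pc t]) (fun t => (m t).1.2.le.trans (by norm_num)) (fun t => ?_)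
      (fun t => ?_) fun t => (m t).2
    · obtain ⟨t0, h1, h2⟩ := hall _ _ ((m 0).1.2.le.trans (by norm_num)) k
      have cc : Continuous c := continuous_iff_continuousAt.2 fun t => (dc t).continuousAt
      have cγ : Continuous γ := continuous_iff_continuousAt.2 fun t => (dγ t).continuousAt
      obtain ⟨κ, hκ⟩ := ((cP.prodMk cQ).of_le (m := 1) (by simp)).locallyLipschitz.locallyLipschitzOn
        |>.exists_lipschitzOnWith_of_compact ((pc.compact_of_continuous hK.ne' cc).union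
          (pγ.compact_of_continuous hL.ne' cγ))
      have e : c = fun t => γ (t + t0) := by
        refine ODE_solution_unique_univ (v := fun _ p => (P p, Q p)) (s := fun _ => range c ∪ range γ)
          (t₀ := 0) (fun _ => hκ) (fun t => ⟨dc t, Or.inl (mem_range_self t)⟩)
          (fun t => ⟨(dγ (t + t0)).comp_add_const t t0, Or.inr (mem_range_self _)⟩) ?_
        simp only [hγ, zero_add, h1, h2, x2, y2]
      rw [e]
      exact (add_right_surjective t0).range_comp γ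
    · have := (dS _).comp t ((ContinuousLinearMap.fst ℝ ℝ ℝ).hasFDerivAt.comp_hasDerivAt t (dc t))
      refine HasDerivAt.congr_deriv this ?_
      have h0 : A (S (c t).1) ≠ 0 := by have := lA (S (c t).1); linarith
      simp only [hP, ContinuousLinearMap.coe_fst', Function.comp]
      field_simp
    · have := (dT _).comp t ((ContinuousLinearMap.snd ℝ ℝ ℝ).hasFDerivAt.comp_hasDerivAt t (dc t))
      refine HasDerivAt.congr_deriv this ?_
      simp only [hQ, ContinuousLinearMap.coe_snd', Function.comp, sA _ (m t).1.1, sB _ (m t).1.2]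
      ring

end Pool.Agent.Results.MP_3ec6ac_an.Cycle
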